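import Pool.Agent.SDD.Defs

/-!
Second wave of the project SDET, row R2: the mixed derivative in `D` new variables, at zero, of a
member of a tower of families, substituted at polynomials of degree at most `dl`.
-/

open MvPolynomial Finset
open scoped BigOperators ENNReal

namespace Pool.SDD

universe u v w
variable {K : Type u} [Field K]

/-- chain rule -/
theorem derivation_aeval {R : Type*} [CommRing R] [Algebra K R] {E : Type*} [Fintype E]
    (d : Derivation K R R) (A : E → R) (P : MvPolynomial E K) :
    d (aeval A P) = ∑ e, aeval A (pderiv e P) * d (A e) := by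
  classical
  induction P using MvPolynomial.induction_on with
  | C a => simp
  | add p q hp hq => simp [map_add, hp, hq, add_mul, Finset.sum_add_distrib]
  | mul_X p n hp =>
    have h1 : ∀ e, aeval A (pderiv e (p * X n)) * d (A e) =
        A n * (aeval A (pderiv e p) * d (A e)) + (if n = e then aeval A p * d (A e) else 0) := by
      intro e
      rw [pderiv_mul, map_add, map_mul, map_mul, aeval_X]
      by_cases h : n = e
      · subst h
        rw [pderiv_X_self, map_one, if_pos rfl]
        ring
      · rw [pderiv_X_of_ne h, map_zero, if_neg h]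
        ring
    rw [map_mul, Derivation.leibniz, aeval_X, hp, Finset.sum_congr rfl fun e _ => h1 e,
      Finset.sum_add_distrib, ← Finset.mul_sum, Finset.sum_ite_eq]
    simp only [Finset.mem_univ, if_true, smul_eq_mul]
    ring

theorem pderiv_totalDegree {τ : Type*} (b : τ) (q : MvPolynomial τ K) :
    (pderiv b q).totalDegree ≤ q.totalDegree - 1 := by
  classical
  unfold MvPolynomial.totalDegree
  apply Finset.sup_le
  intro m hm
  rw [mem_support_iff, coeff_pderiv] at hm
  have h1 : m + Finsupp.single b 1 ∈ q.support := by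
    rw [mem_support_iff]
    exact left_ne_zero_of_mul hm
  have h2 := Finset.le_sup (f := fun s : τ →₀ ℕ => s.sum fun _ e => e) h1
  have h3 : (m + Finsupp.single b 1).sum (fun _ e => e) = (m.sum fun _ e => e) + 1 := by
    rw [Finsupp.sum_add_index (fun _ _ => rfl) (fun _ _ _ _ => rfl), Finsupp.sum_single_index rfl]
  simp only [h3] at h2
  omega

theorem totalDegree_aeval_monomial {τ ρ : Type*} (f : τ → MvPolynomial ρ K)
    (hf : ∀ x, (f x).totalDegree ≤ 1) (u : τ →₀ ℕ) :
    (aeval f (monomial u (1:K))).totalDegree ≤ u.degree := by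
  rw [aeval_monomial, map_one, one_mul, Finsupp.prod, Finsupp.degree_apply]
  refine (totalDegree_finsetProd _ _).trans (Finset.sum_le_sum fun x _ => ?_)
  refine (totalDegree_pow _ _).trans ?_
  calc u x * (f x).totalDegree ≤ u x * 1 := Nat.mul_le_mul_left _ (hf x)
    _ = u x := mul_one _

theorem Wl_mono_r {Y : Type v} {ι : Type w} (g : ι → MvPolynomial Y K) {l l' : ℕ} (h : l ≤ l') :
    Wl g l ≤ Wl g l' := by
  apply Submodule.span_mono
  rintro f ⟨μ, i, hμ, rfl⟩
  exact ⟨μ, i, hμ.trans h, rfl⟩

theorem mul_mem_Wl_r {Y : Type v} {ι : Type w} (g : ι → MvPolynomial Y K) (q : MvPolynomial Y K)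
    {a l : ℕ} (hq : q.totalDegree ≤ a) {x : MvPolynomial Y K} (hx : x ∈ Wl g l) :
    q * x ∈ Wl g (a + l) := by
  induction hx using Submodule.span_induction with
  | mem x hx =>
    obtain ⟨μ, i, hμ, rfl⟩ := hx
    rw [q.as_sum, Finset.sum_mul]
    refine Submodule.sum_mem _ fun s hs => ?_
    have h1 : (monomial s (coeff s q) : MvPolynomial Y K) * (monomial μ 1 * g i) =
        (coeff s q) • (monomial (s + μ) 1 * g i) := by
      rw [← mul_assoc, monomial_mul, mul_one, ← smul_mul_assoc, smul_monomial, smul_eq_mul,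
        mul_one]
    rw [h1]
    refine Submodule.smul_mem _ _ (Submodule.subset_span ⟨s + μ, i, ?_, rfl⟩)
    rw [map_add]
    have h2 : s.degree ≤ q.totalDegree := le_totalDegree hs
    omega
  | zero => rw [mul_zero]; exact Submodule.zero_mem _
  | add x y _ _ hx hy => rw [mul_add]; exact Submodule.add_mem _ hx hy
  | smul c x _ hx => rw [mul_smul_comm]; exact Submodule.smul_mem _ _ hx

theorem mem_Wl_zero {Y : Type v} {ι : Type w} (g : ι → MvPolynomial Y K) (i : ι) :
    g i ∈ Wl g 0 := by
  apply Submodule.subset_span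
  refine ⟨0, i, by simp, ?_⟩
  rw [show (monomial (0 : Y →₀ ℕ) (1 : K)) = 1 from rfl, one_mul]

section tower

variable {Y E : Type v} {ι : ℕ → Type w} (p : ∀ k, ι k → MvPolynomial E K)
  (hp : Tower p) (dl : ℕ) (A : E → MvPolynomial Y K)

include hp in
theorem tower_der (k : ℕ) (i : ι (k + 1)) (e : E) :
    aeval A (pderiv e (p (k + 1) i)) ∈ Wl (fun j => aeval A (p k j)) 0 := by
  have h := hp.der k i e
  generalize pderiv e (p (k + 1) i) = y at h ⊢
  induction h using Submodule.span_induction with
  | mem x hx =>
    obtain ⟨j, rfl⟩ := hx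
    exact mem_Wl_zero (fun j => aeval A (p k j)) j
  | zero => rw [map_zero]; exact Submodule.zero_mem _
  | add x y _ _ hx hy => rw [map_add]; exact Submodule.add_mem _ hx hy
  | smul c x _ hx => rw [map_smul]; exact Submodule.smul_mem _ _ hx

include hp in
theorem tower_eul (hA : ∀ e, (A e).totalDegree ≤ dl) (k : ℕ) (i : ι (k + 1)) :
    aeval A (p (k + 1) i) ∈ Wl (fun j => aeval A (p k j)) dl := by
  have h := hp.eul k i
  generalize p (k + 1) i = y at h ⊢
  induction h using Submodule.span_induction with
  | mem x hx =>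
    obtain ⟨e, j, rfl⟩ := hx
    rw [map_mul, aeval_X]
    have h1 := mul_mem_Wl_r (fun j => aeval A (p k j)) (A e) (hA e)
      (mem_Wl_zero (fun j => aeval A (p k j)) j)
    rwa [add_zero] at h1
  | zero => rw [map_zero]; exact Submodule.zero_mem _
  | add x y _ _ hx hy => rw [map_add]; exact Submodule.add_mem _ hx hy
  | smul c x _ hx => rw [map_smul]; exact Submodule.smul_mem _ _ hx

include hp in
theorem pderiv_mem_Wl [Fintype E] (hdl : 1 ≤ dl) (hA : ∀ e, (A e).totalDegree ≤ dl) (k l : ℕ)
    (b : Y) {x : MvPolynomial Y K} (hx : x ∈ Wl (fun j => aeval A (p (k + 1) j)) l) :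
    pderiv b x ∈ Wl (fun j => aeval A (p k j)) (l + (dl - 1)) := by
  classical
  induction hx using Submodule.span_induction with
  | mem x hx =>
    obtain ⟨μ, i, hμ, rfl⟩ := hx
    rw [pderiv_mul]
    apply Submodule.add_mem
    · by_cases h0 : μ b = 0
      · have : pderiv b (monomial μ (1:K)) = 0 := by
          rw [pderiv_monomial, h0]; simp
        rw [this, zero_mul]
        exact Submodule.zero_mem _
      · have h1 : 1 ≤ μ.degree := by
          have h2 : μ b ≤ μ.degree := Finsupp.le_degree b μ
          omega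
        have h3 : (pderiv b (monomial μ (1:K))).totalDegree ≤ μ.degree - 1 := by
          refine (pderiv_totalDegree b _).trans ?_
          exact Nat.sub_le_sub_right (totalDegree_monomial_le μ (1:K)) 1
        have h5 := mul_mem_Wl_r _ _ h3 (tower_eul p hp dl A hA k i)
        exact Wl_mono_r _ (by omega) h5
    · rw [derivation_aeval, Finset.mul_sum]
      refine Submodule.sum_mem _ fun e _ => ?_
      have h1 : monomial μ (1:K) * (aeval A (pderiv e (p (k + 1) i)) * pderiv b (A e)) =
          (monomial μ (1:K) * pderiv b (A e)) * aeval A (pderiv e (p (k + 1) i)) := by ring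
      rw [h1]
      have h2 : (monomial μ (1:K) * pderiv b (A e)).totalDegree ≤ l + (dl - 1) := by
        refine (totalDegree_mul _ _).trans (Nat.add_le_add ?_ ?_)
        · exact (totalDegree_monomial_le μ (1:K)).trans hμ
        · refine (pderiv_totalDegree b _).trans ?_
          have := hA e
          omega
      have h3 := mul_mem_Wl_r _ _ h2 (tower_der p hp A k i e)
      rwa [add_zero] at h3
  | zero => rw [map_zero]; exact Submodule.zero_mem _
  | add x y _ _ hx hy => rw [map_add]; exact Submodule.add_mem _ hx hy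
  | smul c x _ hx => rw [Derivation.map_smul]; exact Submodule.smul_mem _ _ hx

end tower

section iterated

variable {Y : Type v} {D : ℕ}

/-- the iterated derivative in the new variables of the list `l` -/
noncomputable def iterD (l : List (Fin D)) (F : MvPolynomial (Y ⊕ Fin D) K) :
    MvPolynomial (Y ⊕ Fin D) K :=
  l.foldr (fun b g => pderiv (Sum.inr b) g) F

theorem iterD_cons (b : Fin D) (l : List (Fin D)) (F : MvPolynomial (Y ⊕ Fin D) K) :
    iterD (b :: l) F = pderiv (Sum.inr b) (iterD l F) := rfl

theorem coeff_iterD (l : List (Fin D)) (hl : l.Nodup) (F : MvPolynomial (Y ⊕ Fin D) K)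
    (m : (Y ⊕ Fin D) →₀ ℕ) (hm : ∀ b ∈ l, m (Sum.inr b) = 0) :
    coeff m (iterD l F) =
      coeff (m + (l.map fun b => Finsupp.single (Sum.inr b) 1).sum) F := by
  classical
  induction l generalizing m with
  | nil => simp [iterD]
  | cons b l ih =>
    rw [List.nodup_cons] at hl
    rw [iterD_cons, coeff_pderiv, hm b List.mem_cons_self, Nat.cast_zero, zero_add, mul_one,
      ih hl.2, List.map_cons, List.sum_cons, add_assoc]
    intro b' hb'
    have hne : b ≠ b' := fun h => hl.1 (h ▸ hb')
    have h1 : (Finsupp.single (Sum.inr b : Y ⊕ Fin D) 1 : (Y ⊕ Fin D) →₀ ℕ) (Sum.inr b') = 0 := by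
      apply Finsupp.single_eq_of_ne
      intro h
      exact hne (Sum.inr_injective h).symm
    rw [Finsupp.add_apply, hm b' (List.mem_cons_of_mem _ hb'), h1]

/-- setting the new variables to zero -/
noncomputable def epsD (K : Type u) [Field K] (Y : Type v) (D : ℕ) :
    MvPolynomial (Y ⊕ Fin D) K →ₐ[K] MvPolynomial Y K :=
  aeval (Sum.elim X 0 : Y ⊕ Fin D → MvPolynomial Y K)

theorem coeff_epsD (F : MvPolynomial (Y ⊕ Fin D) K) (u : Y →₀ ℕ) :
    coeff u (epsD K Y D F) = coeff (u.embDomain ⟨Sum.inl, Sum.inl_injective⟩) F := by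
  classical
  induction F using MvPolynomial.induction_on' with
  | monomial s c =>
    by_cases h : ∃ b : Fin D, s (Sum.inr b) ≠ 0
    · obtain ⟨b, hb⟩ := h
      have h1 : epsD K Y D (monomial s c) = 0 := by
        rw [epsD, aeval_monomial]
        have : (s.prod fun i k => (Sum.elim X 0 : Y ⊕ Fin D → MvPolynomial Y K) i ^ k) = 0 := by
          rw [Finsupp.prod]
          apply Finset.prod_eq_zero (Finsupp.mem_support_iff.2 hb)
          simp [hb]
        rw [this, mul_zero]
      rw [h1, coeff_zero, coeff_monomial, if_neg]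
      intro h2
      apply hb
      rw [h2]
      apply Finsupp.embDomain_of_notMem_range
      simp
    · push Not at h
      obtain ⟨t, rfl⟩ : ∃ t : Y →₀ ℕ, s = t.embDomain ⟨Sum.inl, Sum.inl_injective⟩ := by
        refine ⟨s.comapDomain Sum.inl Sum.inl_injective.injOn, ?_⟩
        apply DFunLike.ext
        rintro (y | b)
        · have := Finsupp.embDomain_apply_self (⟨Sum.inl, Sum.inl_injective⟩ : Y ↪ Y ⊕ Fin D)
            (s.comapDomain Sum.inl Sum.inl_injective.injOn) y
          exact this.symm
        · rw [h b]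
          symm
          apply Finsupp.embDomain_of_notMem_range
          simp
      have h1 : (monomial (t.embDomain ⟨Sum.inl, Sum.inl_injective⟩) c :
          MvPolynomial (Y ⊕ Fin D) K) = rename Sum.inl (monomial t c) := by
        rw [rename_monomial, Finsupp.embDomain_eq_mapDomain]
        rfl
      rw [h1, epsD, aeval_rename]
      have h2 : ((Sum.elim X 0 : Y ⊕ Fin D → MvPolynomial Y K) ∘ Sum.inl) = X := by
        funext y; rfl
      rw [h2, aeval_X_left, AlgHom.id_apply, ← h1, coeff_monomial, coeff_monomial]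
      congr 1
      apply propext
      exact (Finsupp.embDomain_injective _).eq_iff.symm
  | add p q hp hq => rw [map_add, coeff_add, coeff_add, hp, hq]

end iterated

/-- iterated derivatives of the multiples of a member of a tower -/
theorem iterD_mem_Wl {Y E : Type v} {ι : ℕ → Type w} {D : ℕ} [Fintype E]
    (p : ∀ k, ι k → MvPolynomial E K) (hp : Tower p) (dl : ℕ) (hdl : 1 ≤ dl)
    (A : E → MvPolynomial (Y ⊕ Fin D) K) (hA : ∀ e, (A e).totalDegree ≤ dl) (nu : ℕ)
    (F : MvPolynomial (Y ⊕ Fin D) K) (l : List (Fin D)) (k k' : ℕ) (hk : k' = k + l.length)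
    (hF : F ∈ Wl (fun j => aeval A (p k' j)) nu) :
    iterD l F ∈ Wl (fun j => aeval A (p k j)) (nu + l.length * (dl - 1)) := by
  induction l generalizing k with
  | nil =>
    have : k' = k := by simpa using hk
    subst this
    simpa [iterD] using hF
  | cons b l ih =>
    have h1 := ih (k + 1) (by rw [hk, List.length_cons]; omega)
    have h2 := pderiv_mem_Wl p hp dl A hdl hA k _ (Sum.inr b) h1
    rw [iterD_cons, List.length_cons, Nat.succ_mul, ← Nat.add_assoc]
    exact h2

/-- setting the new variables to zero -/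
theorem epsD_mem_Wl {Y E : Type v} {ι : Type w} {D : ℕ} (p : ι → MvPolynomial E K)
    (A : E → MvPolynomial (Y ⊕ Fin D) K) (l : ℕ) (F : MvPolynomial (Y ⊕ Fin D) K)
    (hF : F ∈ Wl (fun j => aeval A (p j)) l) :
    epsD K Y D F ∈ Wl (fun j => aeval (fun e => aeval (Sum.elim X 0 : _ → MvPolynomial Y K) (A e))
      (p j)) l := by
  induction hF using Submodule.span_induction with
  | mem x hx =>
    obtain ⟨μ, i, hμ, rfl⟩ := hx
    rw [map_mul]
    have h1 : epsD K Y D (aeval A (p i)) =
        aeval (fun e => aeval (Sum.elim X 0 : _ → MvPolynomial Y K) (A e)) (p i) := by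
      have h2 : (epsD K Y D).comp (aeval A) =
          aeval (fun e => aeval (Sum.elim X 0 : _ → MvPolynomial Y K) (A e)) := by
        apply MvPolynomial.algHom_ext
        intro e
        rw [AlgHom.comp_apply, aeval_X, aeval_X]
        rfl
      exact DFunLike.congr_fun h2 (p i)
    have h3 : (epsD K Y D (monomial μ (1:K))).totalDegree ≤ l := by
      refine (totalDegree_aeval_monomial _ ?_ μ).trans hμ
      rintro (y | b)
      · exact (totalDegree_X (R := K) y).le
      · simp
    simp only
    rw [h1]
    have h4 := mul_mem_Wl_r (fun j => aeval (fun e => aeval (Sum.elim X 0 : _ → MvPolynomial Y K)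
      (A e)) (p j)) _ h3 (mem_Wl_zero (fun j => aeval (fun e => aeval (Sum.elim X 0 :
        _ → MvPolynomial Y K) (A e)) (p j)) i)
    rwa [add_zero] at h4
  | zero => rw [map_zero]; exact Submodule.zero_mem _
  | add x y _ _ hx hy => rw [map_add]; exact Submodule.add_mem _ hx hy
  | smul c x _ hx => rw [map_smul]; exact Submodule.smul_mem _ _ hx

/-- R2: mixed derivative in `D` new variables, at zero -/
theorem R2 {Y E : Type v} {ι : ℕ → Type w} [Fintype E] (p : ∀ k, ι k → MvPolynomial E K)
    (hp : Tower p) (k D nu dl : ℕ) (hdl : 1 ≤ dl)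
    (A : E → MvPolynomial (Y ⊕ Fin D) K) (hA : ∀ e, (A e).totalDegree ≤ dl)
    (F : MvPolynomial (Y ⊕ Fin D) K) (hF : F ∈ Wl (fun j => aeval A (p (k + D) j)) nu) :
    ∃ G : MvPolynomial Y K,
      G ∈ Wl (fun j => aeval (fun e => aeval (Sum.elim X 0 : _ → MvPolynomial Y K) (A e)) (p k j))
        (nu + D * (dl - 1)) ∧
      ∀ (u : Y →₀ ℕ), coeff u G =
        coeff (u.embDomain ⟨Sum.inl, Sum.inl_injective⟩ +
          ∑ b : Fin D, Finsupp.single (Sum.inr b) 1) F := by
  classical
  refine ⟨epsD K Y D (iterD (List.finRange D) F), ?_, ?_⟩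
  · apply epsD_mem_Wl (p k) A
    have h := iterD_mem_Wl p hp dl hdl A hA nu F (List.finRange D) k (k + D)
      (by rw [List.length_finRange]) hF
    rwa [List.length_finRange] at h
  · intro u
    rw [coeff_epsD, coeff_iterD _ (List.nodup_finRange D), ← Fin.sum_univ_def]
    intro b _
    apply Finsupp.embDomain_of_notMem_range
    simp

end Pool.SDD
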