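import Pool.Agent.Helper69.SDD.R2k
import Pool.Agent.Helper97.PF.Tower

/-!
Sub-Pfaffians of the generic alternating matrix are multi-affine; row R2 for an arbitrary exponent
for Pfaffians.
-/

open MvPolynomial Finset

namespace Pool.PF

variable {K : Type*} [Field K] {N : ℕ}

/-- square-free monomials in the cells with both indices in `l` -/
def sqf (l : List (Fin N)) : Set (Cell N →₀ ℕ) :=
  {s | (∀ c, s c ≤ 1) ∧ ∀ c, s c ≠ 0 → c.1.1 ∈ l ∧ c.1.2 ∈ l}

lemma mkCell_ends (x z : Fin N) (h : x ≠ z) :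
    ((mkCell x z h).1.1 = x ∧ (mkCell x z h).1.2 = z) ∨
      ((mkCell x z h).1.1 = z ∧ (mkCell x z h).1.2 = x) := by
  unfold mkCell
  split_ifs
  · exact Or.inl ⟨rfl, rfl⟩
  · exact Or.inr ⟨rfl, rfl⟩

lemma X_mul_mem {l l' : List (Fin N)} {x z : Fin N} (hxz : x ≠ z) (hx : x ∉ l')
    (hl : ∀ i ∈ l', i ∈ l) (hxl : x ∈ l) (hzl : z ∈ l) {q : MvPolynomial (Cell N) K}
    (hq : q ∈ restrictSupport K (sqf l')) :
    X (mkCell x z hxz) * q ∈ restrictSupport K (sqf l) := by
  classical
  rw [mem_restrictSupport_iff] at hq ⊢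
  intro s hs
  rw [Finset.mem_coe, support_X_mul, Finset.mem_map] at hs
  obtain ⟨s', hs', rfl⟩ := hs
  have h1 := hq hs'
  obtain ⟨h2, h3⟩ := h1
  have h0 : s' (mkCell x z hxz) = 0 := by
    by_contra h
    have h4 := h3 _ h
    rcases mkCell_ends x z hxz with h5 | h5
    · exact hx (h5.1 ▸ h4.1)
    · exact hx (h5.2 ▸ h4.2)
  have hval : ∀ c, (addLeftEmbedding (Finsupp.single (mkCell x z hxz) 1) s') c
      = Finsupp.single (mkCell x z hxz) 1 c + s' c := fun c => rfl
  constructor
  · intro c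
    rw [hval]
    by_cases hc : c = mkCell x z hxz
    · subst hc
      rw [h0, Finsupp.single_eq_same]
    · rw [Finsupp.single_eq_of_ne hc, zero_add]
      exact h2 c
  · intro c h
    rw [hval] at h
    by_cases hc : c = mkCell x z hxz
    · subst hc
      rcases mkCell_ends x z hxz with h5 | h5
      · rw [h5.1, h5.2]; exact ⟨hxl, hzl⟩
      · rw [h5.1, h5.2]; exact ⟨hzl, hxl⟩
    · rw [Finsupp.single_eq_of_ne hc, zero_add] at h
      exact ⟨hl _ (h3 c h).1, hl _ (h3 c h).2⟩

/-- Pfaffians of lists without repetition -/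
theorem pfk_mem_sqf (k : ℕ) (l : List (Fin N)) (hl : l.Nodup) :
    pfk (gsk fun c => (X (id c) : MvPolynomial (Cell N) K)) k l ∈ restrictSupport K (sqf l) := by
  classical
  induction k generalizing l with
  | zero =>
    cases l with
    | nil =>
      rw [pfk_zero_nil, mem_restrictSupport_iff]
      intro s hs
      have h1 : s = 0 := by
        by_contra h
        rw [Finset.mem_coe, mem_support_iff, coeff_one, if_neg (Ne.symm h)] at hs
        exact hs rfl
      subst h1
      exact ⟨fun c => by simp, fun c h => absurd rfl h⟩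
    | cons x l =>
      rw [pfk_zero_cons]
      exact Submodule.zero_mem _
  | succ k ih =>
    cases l with
    | nil =>
      rw [pfk_succ_nil]
      exact Submodule.zero_mem _
    | cons x l =>
      rw [pfk_succ_cons]
      rw [List.nodup_cons] at hl
      refine se_mem _ ?_
      intro z l' hp
      have hmem : ∀ i, i ∈ l ↔ i = z ∨ i ∈ l' := by
        intro i
        rw [hp.mem_iff, List.mem_cons]
      have hxz : x ≠ z := by
        rintro rfl
        exact hl.1 ((hmem x).2 (Or.inl rfl))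
      have hxl' : x ∉ l' := fun h => hl.1 ((hmem x).2 (Or.inr h))
      have hl' : l'.Nodup := by
        have h1 := hp.nodup_iff.1 hl.2
        exact (List.nodup_cons.1 h1).2
      have h1 := X_mul_mem (K := K) (l := x :: l) hxz hxl'
        (fun i hi => List.mem_cons_of_mem _ ((hmem i).2 (Or.inr hi)))
        (List.mem_cons_self) (List.mem_cons_of_mem _ ((hmem z).2 (Or.inl rfl))) (ih l' hl')
      rcases gsk_eq (fun c => (X (id c) : MvPolynomial (Cell N) K)) x z hxz with h | h
      · rw [h]; exact h1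
      · rw [h, neg_mul]; exact Submodule.neg_mem _ h1

/-- sub-Pfaffians are multi-affine -/
theorem pfam_degreeOf (k : ℕ) (f : Fin (2 * k) ↪o Fin N) (e : Cell N) :
    (pfam K N k f).degreeOf e ≤ 1 := by
  have h := pfk_mem_sqf (K := K) k (List.ofFn f) (List.nodup_ofFn_ofInjective f.injective)
  rw [mem_restrictSupport_iff] at h
  rw [degreeOf_le_iff]
  intro s hs
  exact (h (Finset.mem_coe.2 hs)).1 e

/-- R2 for Pfaffians, arbitrary exponent, any characteristic -/
theorem R2k_pf {Y : Type} {Z : Type*} {dl : ℕ} (hdl : 1 ≤ dl) (k nu : ℕ)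
    (A : Cell N → MvPolynomial (Y ⊕ Z) K) (hA : ∀ e, (A e).totalDegree ≤ dl) (κ : Z →₀ ℕ)
    (F : MvPolynomial (Y ⊕ Z) K)
    (hF : F ∈ Pool.SDD.Wl (fun j => aeval A (pfam K N (k + κ.degree) j)) nu) :
    ∃ G : MvPolynomial Y K,
      G ∈ Pool.SDD.Wl (fun j => aeval (fun e => aeval (Sum.elim X 0 : _ → MvPolynomial Y K) (A e))
        (pfam K N k j)) (nu + κ.degree * (dl - 1)) ∧
      ∀ u : Y →₀ ℕ, coeff u G = coeff (u.embDomain ⟨Sum.inl, Sum.inl_injective⟩ +
        κ.embDomain ⟨Sum.inr, Sum.inr_injective⟩) F :=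
  Pool.SDD.R2k (pfam K N) pfam_tower dl (fun k i e => pfam_degreeOf k i e) hdl k nu A hA κ F hF

end Pool.PF
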