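import Pool.Agent.Helper69.SDD.R2

/-!
Second wave of the project SDET: row R2 for an arbitrary exponent of the new variables, in any
characteristic, for towers of multi-affine polynomials.
-/

open MvPolynomial Finset
open scoped BigOperators

namespace Pool.SDD

universe u v w
variable {K : Type u} [Field K]

section phi

variable {Y : Type v} {Z : Type*}

/-- polynomials in `Y` and `Z` as polynomials in `Z` over the polynomials in `Y` -/
noncomputable def Phi2 (K : Type u) [Field K] (Y : Type v) (Z : Type*) :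
    MvPolynomial (Y ⊕ Z) K →ₐ[K] MvPolynomial Z (MvPolynomial Y K) :=
  aeval (Sum.elim (fun y => C (X y)) X)

/-- the exponent with the given parts -/
noncomputable def ex2 (u : Y →₀ ℕ) (κ : Z →₀ ℕ) : (Y ⊕ Z) →₀ ℕ :=
  u.embDomain ⟨Sum.inl, Sum.inl_injective⟩ + κ.embDomain ⟨Sum.inr, Sum.inr_injective⟩

theorem ex2_inl (u : Y →₀ ℕ) (κ : Z →₀ ℕ) (y : Y) : ex2 u κ (Sum.inl y) = u y := by
  unfold ex2
  rw [Finsupp.add_apply]
  have h1 := Finsupp.embDomain_apply_self (⟨Sum.inl, Sum.inl_injective⟩ : Y ↪ Y ⊕ Z) u y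
  have h2 : κ.embDomain (⟨Sum.inr, Sum.inr_injective⟩ : Z ↪ Y ⊕ Z) (Sum.inl y) = 0 := by
    apply Finsupp.embDomain_of_notMem_range
    simp
  rw [h2, add_zero]
  exact h1

theorem ex2_inr (u : Y →₀ ℕ) (κ : Z →₀ ℕ) (z : Z) : ex2 u κ (Sum.inr z) = κ z := by
  unfold ex2
  rw [Finsupp.add_apply]
  have h1 := Finsupp.embDomain_apply_self (⟨Sum.inr, Sum.inr_injective⟩ : Z ↪ Y ⊕ Z) κ z
  have h2 : u.embDomain (⟨Sum.inl, Sum.inl_injective⟩ : Y ↪ Y ⊕ Z) (Sum.inr z) = 0 := by
    apply Finsupp.embDomain_of_notMem_range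
    simp
  rw [h2, zero_add]
  exact h1

theorem ex2_inj {u u' : Y →₀ ℕ} {κ κ' : Z →₀ ℕ} (h : ex2 u κ = ex2 u' κ') : u = u' ∧ κ = κ' := by
  constructor
  · ext y
    rw [← ex2_inl u κ y, h, ex2_inl]
  · ext z
    rw [← ex2_inr u κ z, h, ex2_inr]

theorem ex2_surj (s : (Y ⊕ Z) →₀ ℕ) : ∃ (u : Y →₀ ℕ) (κ : Z →₀ ℕ), s = ex2 u κ := by
  refine ⟨s.comapDomain Sum.inl Sum.inl_injective.injOn,
    s.comapDomain Sum.inr Sum.inr_injective.injOn, ?_⟩
  apply DFunLike.ext
  rintro (y | z)
  · rw [ex2_inl]; rfl
  · rw [ex2_inr]; rfl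

theorem ex2_degree (u : Y →₀ ℕ) (κ : Z →₀ ℕ) : (ex2 u κ).degree = u.degree + κ.degree := by
  unfold ex2
  rw [map_add, Finsupp.embDomain_eq_mapDomain, Finsupp.embDomain_eq_mapDomain,
    Finsupp.degree_mapDomain, Finsupp.degree_mapDomain]

theorem Phi2_monomial (u : Y →₀ ℕ) (κ : Z →₀ ℕ) (c : K) :
    Phi2 K Y Z (monomial (ex2 u κ) c) = monomial κ (monomial u c) := by
  have h1 : (monomial (ex2 u κ) c : MvPolynomial (Y ⊕ Z) K)
      = rename Sum.inl (monomial u c) * rename Sum.inr (monomial κ (1 : K)) := by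
    rw [rename_monomial, rename_monomial, monomial_mul, mul_one]
    unfold ex2
    rw [Finsupp.embDomain_eq_mapDomain, Finsupp.embDomain_eq_mapDomain]
    rfl
  rw [h1, map_mul]
  unfold Phi2
  rw [aeval_rename, aeval_rename]
  have h2 : ((Sum.elim (fun y => C (X y)) X : Y ⊕ Z → MvPolynomial Z (MvPolynomial Y K)) ∘ Sum.inl)
      = fun y => C (X y) := by funext y; rfl
  have h3 : ((Sum.elim (fun y => C (X y)) X : Y ⊕ Z → MvPolynomial Z (MvPolynomial Y K)) ∘ Sum.inr)
      = X := by funext y; rfl
  rw [h2, h3]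
  have h4 : aeval (fun y => C (X y) : Y → MvPolynomial Z (MvPolynomial Y K)) (monomial u c)
      = C (monomial u c) := by
    have h5 : (aeval (fun y => C (X y) : Y → MvPolynomial Z (MvPolynomial Y K)) :
        MvPolynomial Y K →ₐ[K] MvPolynomial Z (MvPolynomial Y K))
        = IsScalarTower.toAlgHom K (MvPolynomial Y K) (MvPolynomial Z (MvPolynomial Y K)) := by
      apply MvPolynomial.algHom_ext
      intro y
      rw [aeval_X]
      rfl
    rw [h5]
    rfl
  rw [h4, aeval_monomial, map_one, one_mul, C_mul_monomial_eq]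
where
  C_mul_monomial_eq : C (monomial u c) * (κ.prod fun i k => (X i : MvPolynomial Z
      (MvPolynomial Y K)) ^ k) = monomial κ (monomial u c) :=
    (monomial_eq (s := κ) (a := (monomial u c : MvPolynomial Y K))).symm

theorem coeff_Phi2 (F : MvPolynomial (Y ⊕ Z) K) (u : Y →₀ ℕ) (κ : Z →₀ ℕ) :
    coeff u (coeff κ (Phi2 K Y Z F)) = coeff (ex2 u κ) F := by
  classical
  induction F using MvPolynomial.induction_on' with
  | monomial s c =>
    obtain ⟨u', κ', rfl⟩ := ex2_surj s
    rw [Phi2_monomial, coeff_monomial, coeff_monomial]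
    by_cases h1 : κ' = κ
    · rw [if_pos h1, coeff_monomial]
      by_cases h2 : u' = u
      · rw [if_pos h2, if_pos (by rw [h1, h2])]
      · rw [if_neg h2, if_neg fun h => h2 (ex2_inj h).1]
    · rw [if_neg h1, coeff_zero, if_neg fun h => h1 (ex2_inj h).2]
  | add p q hp hq => rw [map_add, coeff_add, coeff_add, coeff_add, hp, hq]

theorem deg_Phi2 {F : MvPolynomial (Y ⊕ Z) K} {L : ℕ} (hF : F.totalDegree ≤ L) (κ : Z →₀ ℕ)
    (h : coeff κ (Phi2 K Y Z F) ≠ 0) :
    (coeff κ (Phi2 K Y Z F)).totalDegree + κ.degree ≤ L := by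
  have h1 : ∀ u ∈ (coeff κ (Phi2 K Y Z F)).support, u.degree + κ.degree ≤ L := by
    intro u hu
    rw [mem_support_iff, coeff_Phi2] at hu
    rw [← ex2_degree]
    exact (le_totalDegree (mem_support_iff.2 hu)).trans hF
  obtain ⟨u0, hu0⟩ := support_nonempty.2 h
  have h2 := h1 u0 hu0
  have h3 : (coeff κ (Phi2 K Y Z F)).totalDegree ≤ L - κ.degree := by
    refine totalDegree_le_of_forall fun u hu => ?_
    have := h1 u hu
    omega
  omega
where
  totalDegree_le_of_forall {q : MvPolynomial Y K} {n : ℕ} (h : ∀ u ∈ q.support, u.degree ≤ n) :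
      q.totalDegree ≤ n := by
    unfold totalDegree
    exact Finset.sup_le fun u hu => h u hu

theorem const_Phi2 (F : MvPolynomial (Y ⊕ Z) K) :
    coeff 0 (Phi2 K Y Z F) = aeval (Sum.elim X 0 : _ → MvPolynomial Y K) F := by
  have h : ((constantCoeff : MvPolynomial Z (MvPolynomial Y K) →+* MvPolynomial Y K).comp
      (Phi2 K Y Z : MvPolynomial (Y ⊕ Z) K →+* MvPolynomial Z (MvPolynomial Y K)))
      = ((aeval (Sum.elim X 0 : _ → MvPolynomial Y K) :
        MvPolynomial (Y ⊕ Z) K →ₐ[K] MvPolynomial Y K) : MvPolynomial (Y ⊕ Z) K →+* _) := by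
    apply MvPolynomial.ringHom_ext
    · intro c
      simp only [RingHom.comp_apply, RingHom.coe_coe, algHom_C]
      rw [MvPolynomial.algebraMap_apply, constantCoeff_C]
    · rintro (y | z)
      · simp only [RingHom.comp_apply, RingHom.coe_coe, aeval_X, Phi2, Sum.elim_inl]
        rw [constantCoeff_C]
      · simp only [RingHom.comp_apply, RingHom.coe_coe, aeval_X, Phi2, Sum.elim_inr]
        rw [constantCoeff_X]
        rfl
  exact DFunLike.congr_fun h F

end phi

/-- a multi-affine polynomial is affine in each variable -/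
theorem aeval_update {R E : Type*} [CommRing R] [Algebra K R] [DecidableEq E] (f : E → R) (e : E)
    (b : R) (q : MvPolynomial E K) (hq : q.degreeOf e ≤ 1) :
    aeval (Function.update f e (f e + b)) q = aeval f q + b * aeval f (pderiv e q) := by
  rw [degreeOf_le_iff] at hq
  conv_lhs => rw [q.as_sum]
  conv_rhs => rw [q.as_sum]
  rw [map_sum, map_sum, map_sum, map_sum, Finset.mul_sum, ← Finset.sum_add_distrib]
  refine Finset.sum_congr rfl fun s hs => ?_
  have h1 := hq s hs
  rw [aeval_monomial, aeval_monomial, pderiv_monomial, aeval_monomial]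
  by_cases h0 : s e = 0
  · have h2 : (s.prod fun i k => (Function.update f e (f e + b)) i ^ k)
        = s.prod fun i k => f i ^ k := by
      refine Finset.prod_congr rfl fun i hi => ?_
      have hie : i ≠ e := by
        rintro rfl
        exact (Finsupp.mem_support_iff.1 hi) h0
      change Function.update f e (f e + b) i ^ s i = f i ^ s i
      rw [Function.update_of_ne hie]
    rw [h2, h0]
    simp
  · have h3 : s e = 1 := by omega
    have hes : e ∈ s.support := Finsupp.mem_support_iff.2 h0
    have h4 : ∀ g : E → R, (s.prod fun i k => g i ^ k)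
        = g e * ∏ i ∈ s.support.erase e, g i ^ s i := by
      intro g
      rw [Finsupp.prod, ← Finset.mul_prod_erase _ _ hes, h3, pow_one]
    have h5 : ((s - Finsupp.single e 1).prod fun i k => f i ^ k)
        = ∏ i ∈ s.support.erase e, f i ^ s i := by
      rw [Finsupp.prod]
      have h6 : (s - Finsupp.single e 1).support = s.support.erase e := by
        ext i
        rw [Finsupp.mem_support_iff, Finset.mem_erase, Finsupp.mem_support_iff,
          Finsupp.tsub_apply]
        by_cases hi : i = e
        · subst hi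
          simp [h3]
        · rw [Finsupp.single_eq_of_ne hi, Nat.sub_zero]
          simp [hi]
      rw [h6]
      refine Finset.prod_congr rfl fun i hi => ?_
      rw [Finsupp.tsub_apply, Finsupp.single_eq_of_ne (Finset.ne_of_mem_erase hi), Nat.sub_zero]
    rw [h4, h4, h5, h3]
    have h7 : ∏ i ∈ s.support.erase e, (Function.update f e (f e + b)) i ^ s i
        = ∏ i ∈ s.support.erase e, f i ^ s i := by
      refine Finset.prod_congr rfl fun i hi => ?_
      rw [Function.update_of_ne (Finset.ne_of_mem_erase hi)]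
    rw [h7, Function.update_self, Nat.cast_one, mul_one]
    ring

section tower

variable {Y : Type v} {Z : Type*} {E : Type v} {ι : ℕ → Type w} (p : ∀ k, ι k → MvPolynomial E K)
  (hp : Tower p) (dl : ℕ)

include hp in
/-- going down in the tower -/
theorem Wl_down {A : E → MvPolynomial Y K} (hA : ∀ e, (A e).totalDegree ≤ dl) (r k l : ℕ)
    {x : MvPolynomial Y K} (hx : x ∈ Wl (fun j => aeval A (p (k + r) j)) l) :
    x ∈ Wl (fun j => aeval A (p k j)) (l + r * dl) := by
  induction r generalizing l x with
  | zero => simpa using hx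
  | succ r ih =>
    have h1 : x ∈ Wl (fun j => aeval A (p (k + r) j)) (l + dl) := by
      induction hx using Submodule.span_induction with
      | mem x hx =>
        obtain ⟨μ, i, hμ, rfl⟩ := hx
        have h2 : (monomial μ (1 : K)).totalDegree ≤ l := (totalDegree_monomial_le μ (1:K)).trans hμ
        exact mul_mem_Wl_r _ _ h2 (tower_eul p hp dl A hA (k + r) i)
      | zero => exact Submodule.zero_mem _
      | add x y _ _ hx hy => exact Submodule.add_mem _ hx hy
      | smul c x _ hx => exact Submodule.smul_mem _ _ hx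
    have h2 := ih (l + dl) h1
    exact Wl_mono_r _ (by rw [Nat.succ_mul]; omega) h2

omit hp in
theorem aeval_span_mem (A : E → MvPolynomial Y K) (k : ℕ) {q : MvPolynomial E K}
    (hq : q ∈ Submodule.span K (Set.range (p k))) :
    aeval A q ∈ Wl (fun j => aeval A (p k j)) 0 := by
  induction hq using Submodule.span_induction with
  | mem x hx =>
    obtain ⟨j, rfl⟩ := hx
    exact mem_Wl_zero (fun j => aeval A (p k j)) j
  | zero => rw [map_zero]; exact Submodule.zero_mem _
  | add x y _ _ hx hy => rw [map_add]; exact Submodule.add_mem _ hx hy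
  | smul c x _ hx => rw [map_smul]; exact Submodule.smul_mem _ _ hx

include hp in
/-- the coefficients of a member of the tower, some of the variables being specialised -/
theorem coeff_partial [DecidableEq E] (hml : ∀ k i e, (p k i).degreeOf e ≤ 1)
    (hdl : 1 ≤ dl) (a : E → MvPolynomial Z (MvPolynomial Y K))
    (ha : ∀ e κ, coeff κ (a e) ≠ 0 → (coeff κ (a e)).totalDegree + κ.degree ≤ dl)
    (T : Finset E) : ∀ (k k' : ℕ) (κ : Z →₀ ℕ), k' = k + κ.degree →
      ∀ q ∈ Submodule.span K (Set.range (p k')),
      coeff κ (aeval (fun e => if e ∈ T then a e else C (coeff 0 (a e))) q) ∈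
        Wl (fun j => aeval (fun e => coeff 0 (a e)) (p k j)) (κ.degree * (dl - 1)) := by
  classical
  have hA0 : ∀ e, (coeff 0 (a e)).totalDegree ≤ dl := by
    intro e
    by_cases h0 : coeff 0 (a e) = 0
    · rw [h0, totalDegree_zero]; exact Nat.zero_le _
    · have := ha e 0 h0
      omega
  induction T using Finset.induction_on with
  | empty =>
    intro k k' κ hk q hq
    have h1 : aeval (fun e => if e ∈ (∅ : Finset E) then a e else C (coeff 0 (a e))) q
        = C (aeval (fun e => coeff 0 (a e)) q) := by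
      have h2 : (fun e => if e ∈ (∅ : Finset E) then a e else C (coeff 0 (a e)))
          = fun e => C (coeff 0 (a e)) := by
        funext e
        rw [if_neg (Finset.notMem_empty e)]
      rw [h2]
      have h4 : aeval (fun e => (C (coeff 0 (a e)) : MvPolynomial Z (MvPolynomial Y K))) q
          = IsScalarTower.toAlgHom K (MvPolynomial Y K) (MvPolynomial Z (MvPolynomial Y K))
            (aeval (fun e => coeff 0 (a e)) q) := by
        rw [← AlgHom.comp_apply, comp_aeval]
        rfl
      rw [h4]
      rfl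
    rw [h1, coeff_C]
    split_ifs with h0
    · subst h0
      have hk' : k' = k := by simpa using hk
      subst hk'
      exact Wl_mono_r _ (Nat.zero_le _) (aeval_span_mem p _ k' hq)
    · exact Submodule.zero_mem _
  | insert e T heT ih =>
    intro k k' κ hk q hq
    set f : E → MvPolynomial Z (MvPolynomial Y K) :=
      fun e => if e ∈ T then a e else C (coeff 0 (a e)) with hf
    set b : MvPolynomial Z (MvPolynomial Y K) := a e - C (coeff 0 (a e)) with hb
    have hfe : f e + b = a e := by
      rw [hf]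
      simp only [heT, if_false, hb]
      ring
    have hupd : (fun e' => if e' ∈ insert e T then a e' else C (coeff 0 (a e')))
        = Function.update f e (f e + b) := by
      funext e'
      by_cases h : e' = e
      · subst h
        rw [Function.update_self, hfe, if_pos (Finset.mem_insert_self _ _)]
      · rw [Function.update_of_ne h, hf]
        simp only [Finset.mem_insert, h, false_or]
    rw [hupd]
    have hb0 : coeff 0 b = 0 := by
      rw [hb, coeff_sub, coeff_C, if_pos rfl, sub_self]
    have hbk : ∀ κ1 : Z →₀ ℕ, κ1 ≠ 0 → coeff κ1 b = coeff κ1 (a e) := by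
      intro κ1 h1
      rw [hb, coeff_sub, coeff_C, if_neg (Ne.symm h1), sub_zero]
    -- it is enough to treat the members
    induction hq using Submodule.span_induction with
    | mem q hq =>
      obtain ⟨i, rfl⟩ := hq
      rw [aeval_update f e b (p k' i) (hml k' i e), coeff_add, coeff_mul]
      refine Submodule.add_mem _ (ih k k' κ hk _ (Submodule.subset_span ⟨i, rfl⟩)) ?_
      refine Submodule.sum_mem _ fun x hx => ?_
      have hx1 : x.1 + x.2 = κ := Finset.HasAntidiagonal.mem_antidiagonal.1 hx
      by_cases h0 : x.1 = 0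
      · rw [h0, hb0, zero_mul]
        exact Submodule.zero_mem _
      · have hpos : 0 < x.1.degree := by
          rw [Nat.pos_iff_ne_zero]
          intro h
          exact h0 ((Finsupp.degree_eq_zero_iff x.1).1 h)
        have hdeg : x.1.degree + x.2.degree = κ.degree := by rw [← hx1, map_add]
        by_cases h1 : coeff x.1 b = 0
        · rw [h1, zero_mul]
          exact Submodule.zero_mem _
        · rw [hbk _ h0] at h1 ⊢
          have h2 := ha e x.1 h1
          -- the derivative goes one step down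
          obtain ⟨k2, hk2⟩ : ∃ k2, k' = k2 + 1 := ⟨k' - 1, by omega⟩
          subst hk2
          have h3 := hp.der k2 i e
          have h4 := ih (k + (x.1.degree - 1)) k2 x.2 (by omega) _ h3
          have h5 : (coeff x.1 (a e)).totalDegree ≤ dl - x.1.degree := by omega
          have h6 := mul_mem_Wl_r _ _ h5 h4
          have h7 := Wl_down p hp dl hA0 (x.1.degree - 1) k _ h6
          refine Wl_mono_r _ ?_ h7
          rw [← hdeg]
          obtain ⟨d, hd⟩ : ∃ d, x.1.degree = d + 1 := ⟨x.1.degree - 1, by omega⟩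
          obtain ⟨e', he'⟩ : ∃ e', dl = e' + 1 := ⟨dl - 1, by omega⟩
          have h8 : d ≤ e' := by omega
          rw [hd, he']
          simp only [Nat.add_sub_cancel]
          have h9 : e' + 1 - (d + 1) = e' - d := by omega
          rw [h9]
          obtain ⟨c, rfl⟩ : ∃ c, e' = d + c := ⟨e' - d, by omega⟩
          rw [Nat.add_sub_cancel_left]
          nlinarith
    | zero => rw [map_zero, coeff_zero]; exact Submodule.zero_mem _
    | add x y _ _ hx hy => rw [map_add, coeff_add]; exact Submodule.add_mem _ hx hy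
    | smul c x _ hx =>
      rw [map_smul]
      have h1 : coeff κ (c • aeval (Function.update f e (f e + b)) x)
          = c • coeff κ (aeval (Function.update f e (f e + b)) x) := rfl
      rw [h1]
      exact Submodule.smul_mem _ _ hx

include hp in
/-- **R2 for an arbitrary exponent**, any characteristic -/
theorem R2k [Finite E] (hml : ∀ k i e, (p k i).degreeOf e ≤ 1) (hdl : 1 ≤ dl) (k nu : ℕ)
    (A : E → MvPolynomial (Y ⊕ Z) K) (hA : ∀ e, (A e).totalDegree ≤ dl) (κ : Z →₀ ℕ)
    (F : MvPolynomial (Y ⊕ Z) K) (hF : F ∈ Wl (fun j => aeval A (p (k + κ.degree) j)) nu) :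
    ∃ G : MvPolynomial Y K,
      G ∈ Wl (fun j => aeval (fun e => aeval (Sum.elim X 0 : _ → MvPolynomial Y K) (A e)) (p k j))
        (nu + κ.degree * (dl - 1)) ∧
      ∀ u : Y →₀ ℕ, coeff u G = coeff (u.embDomain ⟨Sum.inl, Sum.inl_injective⟩ +
        κ.embDomain ⟨Sum.inr, Sum.inr_injective⟩) F := by
  classical
  refine ⟨coeff κ (Phi2 K Y Z F), ?_, fun u => coeff_Phi2 F u κ⟩
  have := Fintype.ofFinite E
  have hA0 : (fun e => aeval (Sum.elim X 0 : _ → MvPolynomial Y K) (A e))
      = fun e => coeff 0 (Phi2 K Y Z (A e)) := by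
    funext e
    rw [const_Phi2]
  rw [hA0]
  have hd0 : ∀ e, (coeff 0 (Phi2 K Y Z (A e))).totalDegree ≤ dl := by
    intro e
    by_cases h0 : coeff 0 (Phi2 K Y Z (A e)) = 0
    · rw [h0, totalDegree_zero]; exact Nat.zero_le _
    · have := deg_Phi2 (hA e) 0 h0
      omega
  induction hF using Submodule.span_induction with
  | mem F hF =>
    obtain ⟨μ, i, hμ, rfl⟩ := hF
    rw [map_mul, coeff_mul]
    refine Submodule.sum_mem _ fun x hx => ?_
    have hx1 : x.1 + x.2 = κ := Finset.HasAntidiagonal.mem_antidiagonal.1 hx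
    have hdeg : x.1.degree + x.2.degree = κ.degree := by rw [← hx1, map_add]
    by_cases h1 : coeff x.1 (Phi2 K Y Z (monomial μ (1 : K))) = 0
    · rw [h1, zero_mul]
      exact Submodule.zero_mem _
    · have h2 := deg_Phi2 ((totalDegree_monomial_le μ (1 : K)).trans hμ) x.1 h1
      have h3 := coeff_partial p hp dl hml hdl (fun e => Phi2 K Y Z (A e))
        (fun e κ' h => deg_Phi2 (hA e) κ' h) Finset.univ (k + x.1.degree) (k + κ.degree) x.2
        (by omega) (p (k + κ.degree) i) (Submodule.subset_span ⟨i, rfl⟩)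
      have h4 : Phi2 K Y Z (aeval A (p (k + κ.degree) i))
          = aeval (fun e => if e ∈ Finset.univ then Phi2 K Y Z (A e)
            else C (coeff 0 (Phi2 K Y Z (A e)))) (p (k + κ.degree) i) := by
        rw [← AlgHom.comp_apply, comp_aeval]
        simp only [Finset.mem_univ, if_true]
      rw [← h4] at h3
      have h5 : (coeff x.1 (Phi2 K Y Z (monomial μ (1 : K)))).totalDegree ≤ nu - x.1.degree := by
        omega
      have h6 := mul_mem_Wl_r _ _ h5 h3
      have h7 := Wl_down p hp dl hd0 x.1.degree k _ h6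
      refine Wl_mono_r _ ?_ h7
      rw [← hdeg]
      obtain ⟨c, hc⟩ : ∃ c, nu = x.1.degree + c := ⟨nu - x.1.degree, by omega⟩
      obtain ⟨e', he'⟩ : ∃ e', dl = e' + 1 := ⟨dl - 1, by omega⟩
      rw [hc, he', Nat.add_sub_cancel_left, Nat.add_sub_cancel]
      nlinarith
  | zero => rw [map_zero, coeff_zero]; exact Submodule.zero_mem _
  | add x y _ _ hx hy => rw [map_add, coeff_add]; exact Submodule.add_mem _ hx hy
  | smul c x _ hx =>
    rw [map_smul]
    have h1 : coeff κ (c • Phi2 K Y Z x) = c • coeff κ (Phi2 K Y Z x) := rfl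
    rw [h1]
    exact Submodule.smul_mem _ _ hx

end tower

end Pool.SDD
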